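import Pool.Agent.Y477.SN.Upper
import Pool.Agent.Y477.SN.Lower
import Pool.Agent.Y477.SN.Cls

/-!
For all `2 ≤ c ≤ n` there are finite loops, of `p`-power order for every prime `p`, of central
nilpotence class exactly `c` and supernilpotence class exactly `n`; more generally there is such a
loop on `R ^ (c + n + 1)` for every nontrivial commutative ring `R`. In particular the supernilpotence
classes of the supernilpotent loops of central nilpotence class `c` are unbounded for every `c ≥ 2`.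
-/

namespace Pool.Agent.Results.MP_543b9c_al.AllPairs

open Pool.Agent.Results.MP_543b9c_al.NoBound Pool.Agent.Y477.SN

/-- The elements of the loop are sequences of `C + M + 5` ring elements. -/
def equivFun (R : Type) (C M : ℕ) : L R C M ≃ (R × (Fin (C + 2) → R)) × ((Fin (M + 1) → R) × R) where
  toFun X := ((X.t, X.a), (X.x, X.z))
  invFun w := ⟨w.1.1, w.1.2, w.2.1, w.2.2⟩
  left_inv _ := rfl
  right_inv _ := rfl

theorem clsn_L (R : Type) [CommRing R] [Nontrivial R] {C M : ℕ} (h : C ≤ M) :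
    clsn (L R C M) = (M + 2 : ℕ) := by
  apply le_antisymm
  · exact sInf_le ⟨M + 2, by omega, isSN h, rfl⟩
  · apply le_sInf
    rintro c ⟨k, hk, hSN, rfl⟩
    by_contra hcon
    push Not at hcon
    have hk' : k < M + 2 := by exact_mod_cast hcon
    exact not_isSN k hk (by omega) hSN

theorem card_L (p : ℕ) [NeZero p] (C M : ℕ) : Nat.card (L (ZMod p) C M) = p ^ (C + M + 5) := by
  rw [Nat.card_congr (equivFun (ZMod p) C M)]
  simp only [Nat.card_eq_fintype_card, Fintype.card_prod, Fintype.card_fun, Fintype.card_fin,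
    ZMod.card]
  ring

theorem result (c n : ℕ) (hc : 2 ≤ c) (hn : c ≤ n) :
    (∀ (R : Type) [CommRing R] [Nontrivial R], ∃ (Q : Type) (_ : LoopStr Q),
      Nonempty (Q ≃ (Fin (c + n + 1) → R)) ∧ clcn Q = c ∧ clsn Q = n) ∧
    (∀ p : ℕ, p.Prime → ∃ (Q : Type) (_ : LoopStr Q),
      Nat.card Q = p ^ (c + n + 1) ∧ clcn Q = c ∧ clsn Q = n) ∧
    ¬ ∃ B : ℕ, ∀ (Q : Type) (_ : LoopStr Q), clsn Q < ⊤ → clcn Q = c → clsn Q ≤ B := by
  have key : ∀ (n : ℕ), c ≤ n → ∀ (R : Type) [CommRing R] [Nontrivial R],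
      clcn (L R (c - 2) (n - 2)) = c ∧ clsn (L R (c - 2) (n - 2)) = n := by
    intro n hn R _ _
    have h1 := clcn_L (R := R) (C := c - 2) (M := n - 2)
    have h2 := clsn_L R (show c - 2 ≤ n - 2 by omega)
    rw [show c - 2 + 2 = c by omega] at h1
    rw [show n - 2 + 2 = n by omega] at h2
    exact ⟨h1, h2⟩
  refine ⟨fun R _ _ => ⟨L R (c - 2) (n - 2), inferInstance, ?_, (key n hn R).1, (key n hn R).2⟩,
    fun p hp => ?_, ?_⟩
  · have e1 : (Fin (c - 2 + 2) → R) × (Fin 1 → R) ≃ (Fin (c - 2 + 2) ⊕ Fin 1 → R) :=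
      (Equiv.sumArrowEquivProdArrow _ _ _).symm
    have e2 : (Fin (n - 2 + 1) → R) × (Fin 1 → R) ≃ (Fin (n - 2 + 1) ⊕ Fin 1 → R) :=
      (Equiv.sumArrowEquivProdArrow _ _ _).symm
    have e3 : R ≃ (Fin 1 → R) := (Equiv.funUnique (Fin 1) R).symm
    have e4 : ((Fin (c - 2 + 2) ⊕ Fin 1) ⊕ (Fin (n - 2 + 1) ⊕ Fin 1)) ≃ Fin (c + n + 1) := by
      apply Fintype.equivFinOfCardEq
      simp only [Fintype.card_sum, Fintype.card_fin]
      omega
    exact ⟨(equivFun R (c - 2) (n - 2)).trans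
      ((Equiv.prodCongr
        ((Equiv.prodComm _ _).trans ((Equiv.prodCongr (Equiv.refl _) e3).trans e1))
        ((Equiv.prodCongr (Equiv.refl _) e3).trans e2)).trans
        ((Equiv.sumArrowEquivProdArrow _ _ _).symm.trans (Equiv.arrowCongr e4 (Equiv.refl R))))⟩
  · have : Fact p.Prime := ⟨hp⟩
    refine ⟨L (ZMod p) (c - 2) (n - 2), inferInstance, ?_, (key n hn _).1, (key n hn _).2⟩
    rw [card_L]
    congr 1
    omega
  · rintro ⟨B, hB⟩
    have h1 := key (max c (B + 1)) (le_max_left _ _) (ZMod 2)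
    have h2 := hB (L (ZMod 2) (c - 2) (max c (B + 1) - 2)) inferInstance
      (by rw [h1.2]; exact ENat.natCast_lt_top _) h1.1
    rw [h1.2] at h2
    have h3 : max c (B + 1) ≤ B := by exact_mod_cast h2
    have h4 : B + 1 ≤ max c (B + 1) := le_max_right _ _
    omega

end Pool.Agent.Results.MP_543b9c_al.AllPairs
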